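import Pool.Agent.W_f50700_v2.Final2

/-!
# MP_f50700_nt: the multiplicity asymptotic for almost all integers

`Public.mult A n` is `mult(n)` and `Public.R A n` is `R(n)` of the problem, for the alphabet
`{1, ..., A}`.
-/

set_option autoImplicit false

open Filter Topology

namespace Pool.Agent.Results.MP_f50700_nt.AlmostAll

open Pool.Agent.W_f50700_h3.Public

/-- For every `A ≥ 5` the asymptotic `mult(n) ~ R(n)` holds for almost all `n`: there is a set `S`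
of natural density one with `mult(n) / R(n) → 1` as `n → ∞` in `S`; moreover
`∑_{n ≤ N} |mult(n) / R(n) - 1| = o(N)` and
`∑_{n ≤ N} (mult(n) - R(n))^2 = o(∑_{n ≤ N} R(n)^2)`. -/
theorem result (A : ℕ) (hA : 5 ≤ A) :
    (∃ S : Set ℕ,
      Tendsto (fun N : ℕ => ({n ∈ S | 1 ≤ n ∧ n ≤ N}.ncard : ℝ) / N) atTop (𝓝 1) ∧
      Tendsto (fun n : ℕ => (mult A n : ℝ) / R A n) (atTop ⊓ 𝓟 S) (𝓝 1)) ∧
    Tendsto (fun N : ℕ => (∑ n ∈ Finset.Icc 1 N, |(mult A n : ℝ) / R A n - 1|) / N)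
      atTop (𝓝 0) ∧
    Tendsto (fun N : ℕ => (∑ n ∈ Finset.Icc 1 N, ((mult A n : ℝ) - R A n) ^ 2) /
      ∑ n ∈ Finset.Icc 1 N, (R A n) ^ 2) atTop (𝓝 0) :=
  Pool.Agent.W_f50700_v2.final_of_exponent (by omega) (Pool.Agent.W_f50700_v2.sexp_ge_five hA)

end Pool.Agent.Results.MP_f50700_nt.AlmostAll
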